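import Mathlib

set_option autoImplicit false

/-!
# QRL: definitions (quantitative Ribet lemma for several constituents over a Hecke algebra)

`O` is a Henselian discrete valuation ring, `G` a group, `σ i : G → GL_(d i)(O)` the
constituents, `ρ a : G → GL_N(O)` (`a : H`, `N = Σ d i`) a finite family of representations.
Rows and columns of `N × N` matrices are indexed by `Idx d = Σ i, Fin (d i)`.
-/

namespace Pool.Agent.QRL

open Matrix IsLocalRing

/-- The index set of the rows of a representation of dimension `Σ d i`. -/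
abbrev Idx {I : Type*} (d : I → ℕ) : Type _ := Σ i : I, Fin (d i)

section family

variable {O : Type*} [CommRing O] {G : Type*} [Group G] {X : Type*} [Fintype X] [DecidableEq X]
  {H : Type*}

/-- The traces of `g` in all members of the family. -/
def trTuple (ρ : H → G →* Matrix X X O) (g : G) : H → O := fun a => (ρ a g).trace

/-- The algebra generated over `O` by the traces of the family, inside `O^H`. -/
def traceAlg (ρ : H → G →* Matrix X X O) : Subalgebra O (H → O) :=
  Algebra.adjoin O (Set.range (trTuple ρ))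

/-- The trace tuple as an element of `traceAlg`. -/
def trElt (ρ : H → G →* Matrix X X O) (g : G) : traceAlg ρ :=
  ⟨trTuple ρ g, Algebra.subset_adjoin ⟨g, rfl⟩⟩

/-- Irreducibility over the fraction field. -/
def Irred [IsDomain O] (r : G →* Matrix X X O) : Prop :=
  ∀ W : Submodule (FractionRing O) (X → FractionRing O),
    (∀ g, ∀ w ∈ W, ((r g).map (algebraMap O (FractionRing O))).mulVec w ∈ W) → W = ⊥ ∨ W = ⊤

end family

section cocycles

variable {O : Type*} [CommRing O] [IsLocalRing O] {G : Type*} [Group G] {I : Type*} {d : I → ℕ}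

/-- `O / 𝔪^n`. -/
abbrev On (O : Type*) [CommRing O] [IsLocalRing O] (n : ℕ) : Type _ :=
  O ⧸ (maximalIdeal O) ^ n

/-- Reduction of a matrix modulo `𝔪^n`. -/
def red (n : ℕ) {p q : Type*} (M : Matrix p q O) : Matrix p q (On O n) :=
  M.map (Ideal.Quotient.mk ((maximalIdeal O) ^ n))

/-- The constituents `σ i` are residually absolutely irreducible and pairwise not isomorphic
(Burnside and density form): the matrices `(σ i g mod 𝔪)_i` span the product of the full matrix
algebras over the residue field. -/
def ResDistinct (σ : (i : I) → G →* Matrix (Fin (d i)) (Fin (d i)) O) : Prop :=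
  Submodule.span (ResidueField O)
    (Set.range fun g : G => fun i : I => (σ i g).map (residue O)) = ⊤

/-- Cocycles of `G` with values in `Hom(σ j, σ i) ⊗ O/𝔪^n`, in the form
`c (g h) = σ_i(g) c(h) + c(g) σ_j(h)`. -/
def Coc (σ : (i : I) → G →* Matrix (Fin (d i)) (Fin (d i)) O) (n : ℕ) (i j : I) :
    Submodule O (G → Matrix (Fin (d i)) (Fin (d j)) (On O n)) where
  carrier := {c | ∀ g h, c (g * h) = red n (σ i g) * c h + c g * red n (σ j h)}
  add_mem' := by
    intro a b ha hb g h
    simp only [Set.mem_ofPred_eq] at ha hb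
    simp only [Pi.add_apply, ha g h, hb g h, Matrix.mul_add, Matrix.add_mul]
    abel
  zero_mem' := by
    intro g h
    simp
  smul_mem' := by
    intro t a ha g h
    simp only [Set.mem_ofPred_eq] at ha
    simp only [Pi.smul_apply, ha g h, smul_add, Matrix.mul_smul, Matrix.smul_mul]

/-- Coboundaries `c(g) = σ_i(g) w - w σ_j(g)`. -/
def Cob (σ : (i : I) → G →* Matrix (Fin (d i)) (Fin (d i)) O) (n : ℕ) (i j : I) :
    Submodule O (G → Matrix (Fin (d i)) (Fin (d j)) (On O n)) where
  carrier := {c | ∃ w : Matrix (Fin (d i)) (Fin (d j)) (On O n),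
    ∀ g, c g = red n (σ i g) * w - w * red n (σ j g)}
  add_mem' := by
    rintro a b ⟨w, hw⟩ ⟨v, hv⟩
    refine ⟨w + v, fun g => ?_⟩
    simp only [Pi.add_apply, hw g, hv g, Matrix.mul_add, Matrix.add_mul]
    abel
  zero_mem' := ⟨0, fun g => by simp⟩
  smul_mem' := by
    rintro t a ⟨w, hw⟩
    refine ⟨t • w, fun g => ?_⟩
    simp only [Pi.smul_apply, hw g, smul_sub, Matrix.mul_smul, Matrix.smul_mul]

/-- The action of `g` on the extension module `(O/𝔪^n)^(d i) × (O/𝔪^n)^(d j)` defined by a
cocycle `c`. -/
def extAct (σ : (i : I) → G →* Matrix (Fin (d i)) (Fin (d i)) O) (n : ℕ) {i j : I}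
    (c : G → Matrix (Fin (d i)) (Fin (d j)) (On O n)) (g : G)
    (v : (Fin (d i) → On O n) × (Fin (d j) → On O n)) :
    (Fin (d i) → On O n) × (Fin (d j) → On O n) :=
  ((red n (σ i g)).mulVec v.1 + (c g).mulVec v.2, (red n (σ j g)).mulVec v.2)

/-- The extension defined by the cocycle `c` arises from the family `ρ`: it is a quotient of a
`G`-stable `O`-submodule `P` of a finite direct sum of copies of the sum of the lattices
`O^N` with the actions `ρ a`. -/
def Arises {H : Type*} [Fintype I] [DecidableEq I] (ρ : H → G →* Matrix (Idx d) (Idx d) O)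
    (σ : (i : I) → G →* Matrix (Fin (d i)) (Fin (d i)) O) (n : ℕ) {i j : I}
    (c : G → Matrix (Fin (d i)) (Fin (d j)) (On O n)) : Prop :=
  ∃ (m : ℕ) (P : Submodule O (Fin m → H → Idx d → O))
    (stab : ∀ g : G, ∀ v ∈ P, (fun s a => (ρ a g).mulVec (v s a)) ∈ P)
    (f : P →ₗ[O] ((Fin (d i) → On O n) × (Fin (d j) → On O n))),
    Function.Surjective f ∧
      ∀ (g : G) (v : P), f ⟨fun s a => (ρ a g).mulVec (v.1 s a), stab g v.1 v.2⟩ =
        extAct σ n c g (f v)

/-- The classes of a submodule `S` of functions modulo coboundaries. -/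
abbrev H1 (σ : (i : I) → G →* Matrix (Fin (d i)) (Fin (d i)) O) (n : ℕ) (i j : I)
    (S : Submodule O (G → Matrix (Fin (d i)) (Fin (d j)) (On O n))) : Type _ :=
  ↥S ⧸ (Cob σ n i j).submoduleOf S

end cocycles

end Pool.Agent.QRL
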