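import Pool.Agent.QRL.Targets

set_option autoImplicit false

namespace Pool.Agent.QRL

universe u v w x

namespace DET_

theorem claim {C : Type u} {Q : Type v} {ι : Type w} [CommRing C] [CommRing Q]
    (T : Subring C) (lam : T →+* Q)
    (𝔞 : ι → ι → Set C) (h1 : ∀ i, 𝔞 i i = (T : Set C))
    (hmul : ∀ i k l, ∀ a ∈ 𝔞 i k, ∀ b ∈ 𝔞 k l, a * b ∈ 𝔞 i l)
    (hI : ∀ i k, i ≠ k → ∀ a ∈ 𝔞 i k, ∀ b ∈ 𝔞 k i, ∃ h : a * b ∈ T, lam ⟨a * b, h⟩ = 0) :
    ∀ (n : ℕ) (E : Multiset (ι × ι × C)), Multiset.card E = n →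
      (∀ t ∈ E, t.2.2 ∈ 𝔞 t.1 t.2.1) →
      E.map (fun t => t.1) = E.map (fun t => t.2.1) →
      ∃ h : (E.map (fun t => t.2.2)).prod ∈ T,
        (∃ t ∈ E, t.1 ≠ t.2.1) → lam ⟨(E.map (fun t => t.2.2)).prod, h⟩ = 0 := by
  classical
  intro n
  induction n using Nat.strong_induction_on with
  | _ n ih =>
    intro E hc hg hb
    by_cases hall : ∀ t ∈ E, t.1 = t.2.1
    · refine ⟨?_, ?_⟩
      · apply Subring.multiset_prod_mem
        intro a ha
        obtain ⟨t, ht, rfl⟩ := Multiset.mem_map.1 ha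
        have h2 := hg t ht
        rw [← hall t ht, h1] at h2
        exact h2
      · rintro ⟨t, ht, hne⟩
        exact absurd (hall t ht) hne
    · push Not at hall
      obtain ⟨⟨i, k, c⟩, ht, hne⟩ := hall
      simp only at hne
      obtain ⟨E1, rfl⟩ := Multiset.exists_cons_of_mem ht
      simp only [Multiset.map_cons] at hb
      have hk : k ∈ E1.map (fun t => t.1) := by
        have h3 : k ∈ i ::ₘ E1.map (fun t => t.1) := by
          rw [hb]
          exact Multiset.mem_cons_self _ _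
        rcases Multiset.mem_cons.1 h3 with h4 | h4
        · exact absurd h4.symm hne
        · exact h4
      obtain ⟨⟨k', l, c'⟩, ht', hk'⟩ := Multiset.mem_map.1 hk
      simp only at hk'
      subst hk'
      obtain ⟨E2, rfl⟩ := Multiset.exists_cons_of_mem ht'
      have hc1 : c ∈ 𝔞 i k' := hg (i, k', c) (Multiset.mem_cons_self _ _)
      have hc2 : c' ∈ 𝔞 k' l :=
        hg (k', l, c') (Multiset.mem_cons_of_mem (Multiset.mem_cons_self _ _))
      have hg2 : ∀ t ∈ E2, t.2.2 ∈ 𝔞 t.1 t.2.1 := fun t h =>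
        hg t (Multiset.mem_cons_of_mem (Multiset.mem_cons_of_mem h))
      simp only [Multiset.map_cons] at hb
      rw [Multiset.cons_swap] at hb
      have hb2 : i ::ₘ E2.map (fun t => t.1) = l ::ₘ E2.map (fun t => t.2.1) :=
        (Multiset.cons_inj_right k').1 hb
      simp only [Multiset.card_cons] at hc
      have hprod : (((i, k', c) ::ₘ (k', l, c') ::ₘ E2).map (fun t => t.2.2)).prod =
          c * c' * (E2.map (fun t => t.2.2)).prod := by
        simp only [Multiset.map_cons, Multiset.prod_cons]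
        ring
      by_cases hl : l = i
      · subst hl
        have hb3 : E2.map (fun t => t.1) = E2.map (fun t => t.2.1) :=
          (Multiset.cons_inj_right l).1 hb2
        obtain ⟨h2, -⟩ := ih (Multiset.card E2) (by omega) E2 rfl hg2 hb3
        obtain ⟨h3, h4⟩ := hI l k' hne c hc1 c' hc2
        have h5 : c * c' * (E2.map (fun t => t.2.2)).prod ∈ T := T.mul_mem h3 h2
        refine ⟨hprod ▸ h5, fun _ => ?_⟩
        have h6 : (⟨(((l, k', c) ::ₘ (k', l, c') ::ₘ E2).map (fun t => t.2.2)).prod,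
            hprod ▸ h5⟩ : T) = ⟨c * c', h3⟩ * ⟨(E2.map (fun t => t.2.2)).prod, h2⟩ :=
          Subtype.ext hprod
        rw [h6, map_mul, h4, zero_mul]
      · have hg3 : ∀ t ∈ (i, l, c * c') ::ₘ E2, t.2.2 ∈ 𝔞 t.1 t.2.1 := by
          intro t h
          rcases Multiset.mem_cons.1 h with rfl | h
          · exact hmul i k' l c hc1 c' hc2
          · exact hg2 t h
        have hb3 : ((i, l, c * c') ::ₘ E2).map (fun t => t.1) =
            ((i, l, c * c') ::ₘ E2).map (fun t => t.2.1) := by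
          simpa only [Multiset.map_cons] using hb2
        obtain ⟨h2, h3⟩ := ih (Multiset.card ((i, l, c * c') ::ₘ E2))
          (by simp only [Multiset.card_cons]; omega) _ rfl hg3 hb3
        have h4 := h3 ⟨(i, l, c * c'), Multiset.mem_cons_self _ _, fun h => hl h.symm⟩
        have h5 : (((i, k', c) ::ₘ (k', l, c') ::ₘ E2).map (fun t => t.2.2)).prod =
            (((i, l, c * c') ::ₘ E2).map (fun t => t.2.2)).prod := by
          rw [hprod, Multiset.map_cons, Multiset.prod_cons]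
        refine ⟨h5 ▸ h2, fun _ => ?_⟩
        rw [← h4]
        exact congrArg lam (Subtype.ext h5)

theorem perm {C : Type u} {Q : Type v} {ι : Type w} {L : Type x} [CommRing C] [CommRing Q]
    [Fintype L] (T : Subring C) (lam : T →+* Q)
    (𝔞 : ι → ι → Set C) (h1 : ∀ i, 𝔞 i i = (T : Set C))
    (hmul : ∀ i k l, ∀ a ∈ 𝔞 i k, ∀ b ∈ 𝔞 k l, a * b ∈ 𝔞 i l)
    (hI : ∀ i k, i ≠ k → ∀ a ∈ 𝔞 i k, ∀ b ∈ 𝔞 k i, ∃ h : a * b ∈ T, lam ⟨a * b, h⟩ = 0)
    (bl : L → ι) (N : Matrix L L C) (hN : ∀ l l', N l l' ∈ 𝔞 (bl l) (bl l'))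
    (N' : Matrix L L Q) (hN' : ∀ l l', bl l ≠ bl l' → N' l l' = 0)
    (hN'' : ∀ l l' (h : N l l' ∈ T), bl l = bl l' → N' l l' = lam ⟨N l l', h⟩)
    (σ : Equiv.Perm L) :
    ∃ h : ∏ l, N (σ l) l ∈ T, lam ⟨∏ l, N (σ l) l, h⟩ = ∏ l, N' (σ l) l := by
  classical
  by_cases hall : ∀ l, bl (σ l) = bl l
  · have hm : ∀ l, N (σ l) l ∈ T := by
      intro l
      have h2 := hN (σ l) l
      rw [hall l, h1] at h2
      exact h2
    refine ⟨Subring.prod_mem T fun l _ => hm l, ?_⟩
    have h3 : (⟨∏ l, N (σ l) l, Subring.prod_mem T fun l _ => hm l⟩ : T) =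
        ∏ l, (⟨N (σ l) l, hm l⟩ : T) := by
      apply Subtype.ext
      have h4 := map_prod T.subtype (fun l => (⟨N (σ l) l, hm l⟩ : T)) Finset.univ
      exact h4.symm
    rw [h3, map_prod]
    exact Finset.prod_congr rfl fun l _ => (hN'' (σ l) l (hm l) (hall l)).symm
  · push Not at hall
    obtain ⟨l0, hl0⟩ := hall
    have hb : ((Finset.univ : Finset L).val.map
        (fun l => (bl (σ l), bl l, N (σ l) l))).map (fun t => t.1) =
        ((Finset.univ : Finset L).val.map
        (fun l => (bl (σ l), bl l, N (σ l) l))).map (fun t => t.2.1) := by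
      rw [Multiset.map_map, Multiset.map_map]
      have h5 : (Finset.univ : Finset L).val.map (fun l => bl (σ l)) =
          ((Finset.univ : Finset L).val.map σ).map bl := by
        rw [Multiset.map_map]
        rfl
      have h6 : (Finset.univ : Finset L).val.map σ = (Finset.univ : Finset L).val :=
        Multiset.map_univ_val_equiv σ
      calc _ = (Finset.univ : Finset L).val.map (fun l => bl (σ l)) := rfl
        _ = (Finset.univ : Finset L).val.map bl := by rw [h5, h6]
        _ = _ := rfl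
    obtain ⟨h2, h3⟩ := claim T lam 𝔞 h1 hmul hI _
      ((Finset.univ : Finset L).val.map (fun l => (bl (σ l), bl l, N (σ l) l))) rfl
      (by
        intro t ht
        obtain ⟨l, -, rfl⟩ := Multiset.mem_map.1 ht
        exact hN (σ l) l) hb
    have h7 : (((Finset.univ : Finset L).val.map
        (fun l => (bl (σ l), bl l, N (σ l) l))).map (fun t => t.2.2)).prod =
        ∏ l, N (σ l) l := by
      rw [Multiset.map_map]
      rfl
    have h4 := h3 ⟨(bl (σ l0), bl l0, N (σ l0) l0),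
      Multiset.mem_map.2 ⟨l0, Finset.mem_univ _, rfl⟩, hl0⟩
    refine ⟨h7 ▸ h2, ?_⟩
    have h8 : ∏ l, N' (σ l) l = 0 :=
      Finset.prod_eq_zero (f := fun l => N' (σ l) l) (Finset.mem_univ l0) (hN' (σ l0) l0 hl0)
    rw [h8, ← h4]
    exact congrArg lam (Subtype.ext h7.symm)

end DET_

theorem p_DET : T_DET.{u, v, w, x} := by
  intro C Q ι L _ _ _ _ _ T lam 𝔞 h1 hmul hI bl N hN N' hN' hN''
  have hp := DET_.perm T lam 𝔞 h1 hmul hI bl N hN N' hN' hN''
  choose hm he using hp
  have hs : ((∑ σ : Equiv.Perm L, Equiv.Perm.sign σ • (⟨∏ l, N (σ l) l, hm σ⟩ : T) : T) : C) =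
      N.det := by
    rw [Matrix.det_apply]
    have h4 := map_sum T.subtype
      (fun σ : Equiv.Perm L => Equiv.Perm.sign σ • (⟨∏ l, N (σ l) l, hm σ⟩ : T)) Finset.univ
    refine h4.trans (Finset.sum_congr rfl fun σ _ => ?_)
    rw [Units.smul_def, Units.smul_def, map_zsmul]
    rfl
  have hdet : N.det ∈ T := by
    rw [← hs]
    exact Subtype.property _
  refine ⟨hdet, ?_⟩
  have h5 : (⟨N.det, hdet⟩ : T) =
      ∑ σ : Equiv.Perm L, Equiv.Perm.sign σ • (⟨∏ l, N (σ l) l, hm σ⟩ : T) :=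
    Subtype.ext hs.symm
  rw [h5, map_sum, Matrix.det_apply]
  refine Finset.sum_congr rfl fun σ _ => ?_
  rw [Units.smul_def, Units.smul_def, map_zsmul, he σ]

end Pool.Agent.QRL
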