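import Pool.Agent.QRL.Targets

set_option autoImplicit false

/-!
# QRL: eigenvectors of a matrix with distinct residual eigenvalues (target EIG)
-/

namespace Pool.Agent.QRL

open Matrix IsLocalRing Polynomial

universe u v

namespace EIG_

section res

variable {O : Type u} [CommRing O] [IsLocalRing O] {X : Type v} [Fintype X] [DecidableEq X]

omit [DecidableEq X] in
/-- The residue of the trace. -/
theorem res_trace (A : Matrix X X O) :
    residue O A.trace = (A.map (residue O)).trace := by
  simp [Matrix.trace, map_sum]

/-- The residue of the value of a polynomial. -/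
theorem res_eval (g : O[X]) (a : O) :
    residue O (g.eval a) = (g.map (residue O)).eval (residue O a) := by
  rw [Polynomial.eval_map, Polynomial.eval₂_at_apply]

/-- The residue of a polynomial in a matrix. -/
theorem res_aeval (m : Matrix X X O) (g : O[X]) :
    (Polynomial.aeval m g).map (residue O) =
      Polynomial.aeval (m.map (residue O)) (g.map (residue O)) := by
  have h := Polynomial.map_aeval_eq_aeval_map (φ := residue O)
    (ψ := (residue O).mapMatrix (m := X)) (by
      refine RingHom.ext fun a => ?_
      ext i j
      by_cases hij : i = j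
      · simp [Matrix.algebraMap_matrix_apply, hij]
      · simp [Matrix.algebraMap_matrix_apply, hij]) g m
  exact h

theorem trace_aeval (m : Matrix X X O) (c : X → O)
    (htr : ∀ f : O[X], (Polynomial.aeval m f).trace - ∑ x, f.eval (c x) ∈ maximalIdeal O)
    (f : (ResidueField O)[X]) :
    (Polynomial.aeval (m.map (residue O)) f).trace = ∑ x, f.eval (residue O (c x)) := by
  obtain ⟨g, rfl⟩ := Polynomial.map_surjective (residue O) residue_surjective f
  have h := (residue_eq_zero_iff _).2 (htr g)
  rw [map_sub, sub_eq_zero, res_trace, res_aeval, map_sum] at h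
  rw [h]
  exact Finset.sum_congr rfl fun x _ => res_eval g (c x)

/-- The residual characteristic polynomial vanishes at the `c x`. -/
theorem eval_charp (m : Matrix X X O) (c : X → O)
    (hc : Function.Injective fun x => residue O (c x))
    (htr : ∀ f : O[X], (Polynomial.aeval m f).trace - ∑ x, f.eval (c x) ∈ maximalIdeal O)
    (x : X) : (m.map (residue O)).charpoly.eval (residue O (c x)) = 0 := by
  have h := trace_aeval m c htr ((m.map (residue O)).charpoly *
    Lagrange.basis Finset.univ (fun x => residue O (c x)) x)
  rw [map_mul, Matrix.aeval_self_charpoly, zero_mul, Matrix.trace_zero,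
    Finset.sum_eq_single x] at h
  · rw [Polynomial.eval_mul, Lagrange.eval_basis_self (fun a _ b _ hab => hc hab)
      (Finset.mem_univ x), mul_one] at h
    exact h.symm
  · intro y _ hy
    rw [Polynomial.eval_mul,
      Lagrange.eval_basis_of_ne (v := fun x => residue O (c x)) (fun h => hy h.symm)
      (Finset.mem_univ y), mul_zero]
  · intro h'
    exact absurd (Finset.mem_univ x) h'

/-- The residual characteristic polynomial is the product of the linear factors. -/
theorem charp_eq (m : Matrix X X O) (c : X → O)
    (hc : Function.Injective fun x => residue O (c x))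
    (htr : ∀ f : O[X], (Polynomial.aeval m f).trace - ∑ x, f.eval (c x) ∈ maximalIdeal O) :
    (m.map (residue O)).charpoly = ∏ x, (Polynomial.X - Polynomial.C (residue O (c x))) := by
  have hm : (∏ x, (Polynomial.X - Polynomial.C (residue O (c x)))).Monic :=
    Polynomial.monic_prod_of_monic _ _ fun x _ => Polynomial.monic_X_sub_C _
  have hd : (∏ x, (Polynomial.X - Polynomial.C (residue O (c x)))).degree =
      ((Fintype.card X : ℕ) : WithBot ℕ) := by
    rw [Polynomial.degree_prod]
    simp
  have hd' : (m.map (residue O)).charpoly.degree = ((Fintype.card X : ℕ) : WithBot ℕ) :=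
    Matrix.charpoly_degree_eq_dim _
  refine Polynomial.eq_of_degree_sub_lt_of_eval_index_eq (s := Finset.univ)
    (v := fun x => residue O (c x)) (fun a _ b _ hab => hc hab) ?_ ?_
  · rw [Finset.card_univ, ← hd']
    refine Polynomial.degree_sub_lt_left (by rw [hd, hd']) (Matrix.charpoly_monic _).ne_zero ?_
    rw [(Matrix.charpoly_monic _).leadingCoeff, hm.leadingCoeff]
  · intro x _
    rw [eval_charp m c hc htr x, Polynomial.eval_prod]
    exact (Finset.prod_eq_zero (Finset.mem_univ x) (by simp)).symm

theorem eval_deriv (m : Matrix X X O) (c : X → O)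
    (hc : Function.Injective fun x => residue O (c x))
    (htr : ∀ f : O[X], (Polynomial.aeval m f).trace - ∑ x, f.eval (c x) ∈ maximalIdeal O)
    (x : X) :
    (Polynomial.derivative (m.map (residue O)).charpoly).eval (residue O (c x)) ≠ 0 := by
  have hs : (m.map (residue O)).charpoly.Separable := by
    rw [charp_eq m c hc htr]
    exact Polynomial.separable_prod_X_sub_C_iff.2 hc
  exact hs.eval₂_derivative_ne_zero (RingHom.id _)
    (by simpa [Polynomial.eval₂_id] using eval_charp m c hc htr x)

end res

section dvr

variable {O : Type u} [CommRing O] [IsDomain O] [IsDiscreteValuationRing O]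
  {X : Type v} [Fintype X] [DecidableEq X]

/-- A primitive eigenvector. -/
theorem exists_vec (m : Matrix X X O) (a : O) (h : m.charpoly.eval a = 0) :
    ∃ (w : X → O) (z : X), w z = 1 ∧ m.mulVec w = a • w := by
  rw [Matrix.eval_charpoly] at h
  obtain ⟨v, hv, hm⟩ := Matrix.exists_mulVec_eq_zero_iff.2 h
  have hv' : ∃ y, v y ≠ 0 := by
    by_contra hcon
    push Not at hcon
    exact hv (funext hcon)
  obtain ⟨y0, hy0⟩ := hv'
  obtain ⟨z, _, hz⟩ := Finset.exists_min_image Finset.univ
    (fun y => IsDiscreteValuationRing.addVal O (v y)) ⟨y0, Finset.mem_univ _⟩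
  have hdiv : ∀ y, v z ∣ v y := fun y =>
    IsDiscreteValuationRing.addVal_le_iff_dvd.1 (hz y (Finset.mem_univ y))
  have hz0 : v z ≠ 0 := by
    intro h0
    have := hdiv y0
    rw [h0, zero_dvd_iff] at this
    exact hy0 this
  choose w hw using hdiv
  have hmv : m.mulVec v = a • v := by
    have h1 : (Matrix.scalar X a).mulVec v = a • v := by
      ext i
      simp [Matrix.scalar_apply, Matrix.mulVec_diagonal]
    rw [Matrix.sub_mulVec, h1, sub_eq_zero] at hm
    exact hm.symm
  refine ⟨w, z, ?_, ?_⟩
  · have := hw z
    exact mul_left_cancel₀ hz0 (by rw [mul_one]; exact this.symm)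
  · have hv2 : v = v z • w := by
      ext y
      rw [Pi.smul_apply, smul_eq_mul]
      exact hw y
    have key : v z • m.mulVec w = v z • (a • w) := by
      rw [← Matrix.mulVec_smul, ← hv2, smul_comm, ← hv2]
      exact hmv
    ext i
    have := congrFun key i
    rw [Pi.smul_apply, Pi.smul_apply, smul_eq_mul, smul_eq_mul] at this
    exact mul_left_cancel₀ hz0 this

end dvr

end EIG_

open EIG_ in
theorem p_EIG : T_EIG.{u, v} := by
  intro O _ _ _ _ X _ _ m c hc htr
  -- Hensel
  have hroot : ∀ x, ∃ a, m.charpoly.eval a = 0 ∧ a - c x ∈ maximalIdeal O := by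
    intro x
    have h1 : m.charpoly.eval (c x) ∈ maximalIdeal O := by
      rw [← residue_eq_zero_iff, res_eval, ← Matrix.charpoly_map]
      exact eval_charp m c hc htr x
    have h2 : IsUnit (m.charpoly.derivative.eval (c x)) := by
      rw [← residue_ne_zero_iff_isUnit, res_eval, ← Polynomial.derivative_map,
        ← Matrix.charpoly_map]
      exact eval_deriv m c hc htr x
    exact HenselianLocalRing.is_henselian m.charpoly (Matrix.charpoly_monic m) (c x) h1 h2
  choose μ hμ hμc using hroot
  choose w z hw hmw using fun x => exists_vec m (μ x) (hμ x)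
  have hμr : ∀ x, residue O (μ x) = residue O (c x) := fun x => by
    have := (residue_eq_zero_iff _).2 (hμc x)
    rwa [map_sub, sub_eq_zero] at this
  let y : Matrix X X O := Matrix.of fun i x => w x i
  refine ⟨μ, y, ?_, ?_, hμc⟩
  · -- the determinant is a unit
    rw [← residue_ne_zero_iff_isUnit, RingHom.map_det]
    have hli : LinearIndependent (ResidueField O) (fun x => fun i => residue O (w x i)) := by
      refine Module.End.eigenvectors_linearIndependent'
        (Matrix.toLin' (m.map (residue O))) (fun x => residue O (c x)) hc _ fun x => ?_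
      refine ⟨?_, ?_⟩
      · rw [Module.End.mem_eigenspace_iff, Matrix.toLin'_apply]
        ext i
        have h := congrFun (hmw x) i
        have h' := congrArg (residue O) h
        rw [Pi.smul_apply, smul_eq_mul, map_mul, hμr] at h'
        rw [Pi.smul_apply, smul_eq_mul, ← h']
        simp [Matrix.mulVec, dotProduct, map_sum]
      · intro h0
        have := congrFun h0 (z x)
        simp only [hw, map_one, Pi.zero_apply] at this
        exact one_ne_zero this
    have hu : IsUnit ((residue O).mapMatrix y) :=
      Matrix.linearIndependent_cols_iff_isUnit.1 hli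
    exact ((Matrix.isUnit_iff_isUnit_det _).1 hu).ne_zero
  · ext i x
    rw [Matrix.mul_diagonal, Matrix.mul_apply]
    have h := congrFun (hmw x) i
    rw [Pi.smul_apply, smul_eq_mul] at h
    simp only [y, Matrix.of_apply]
    rw [mul_comm, ← h]
    rfl

end Pool.Agent.QRL
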