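import Pool.Agent.QRL.Targets

set_option autoImplicit false

/-!
# QRL: the length estimate `T_LEN`
-/

namespace Pool.Agent.QRL

open IsLocalRing

universe u v

namespace LEN_

theorem length_quot (O : Type u) [CommRing O] [IsDomain O] [IsDiscreteValuationRing O] (e : ℕ) :
    Module.length O (O ⧸ (maximalIdeal O) ^ e) = e := by
  obtain ⟨ϖ, hϖ⟩ := IsDiscreteValuationRing.exists_irreducible O
  have h1 : (maximalIdeal O) ^ e = Ideal.span {ϖ ^ e} := by
    rw [hϖ.maximalIdeal_eq, Ideal.span_singleton_pow]
  have h2 : Module.length O (O ⧸ Ideal.span {ϖ ^ e}) = e := by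
    have h3 := Ring.ord_pow (R := O) (x := ϖ) (mem_nonZeroDivisors_of_ne_zero hϖ.ne_zero) e
    rw [Ring.ord_of_irreducible hϖ] at h3
    simpa [Ring.ord] using h3
  rw [h1]
  exact h2

end LEN_

theorem p_LEN : T_LEN.{u, v} := by
  intro O _ _ _ r k Q _ _ F hF
  let π : (Fin r → O) →ₗ[O] (Π l : Fin r, O ⧸ (maximalIdeal O) ^ (k l)) :=
    LinearMap.pi fun l => (Submodule.mkQ ((maximalIdeal O) ^ (k l))).comp (LinearMap.proj l)
  have hπ : Function.Surjective π := by
    intro y
    choose x hx using fun l => Submodule.mkQ_surjective ((maximalIdeal O) ^ (k l)) (y l)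
    exact ⟨x, funext fun l => hx l⟩
  have hker : LinearMap.ker F ≤ LinearMap.ker π := by
    intro β hβ
    rw [LinearMap.mem_ker] at hβ ⊢
    funext l
    exact (Submodule.Quotient.mk_eq_zero _).2 (hF β hβ l)
  have hsurj : Function.Surjective ((LinearMap.ker F).liftQ π hker) := by
    intro y
    obtain ⟨x, hx⟩ := hπ y
    exact ⟨Submodule.Quotient.mk x, hx⟩
  have e1 : Module.length O (LinearMap.range F) ≤ Module.length O Q :=
    Module.length_le_of_injective (LinearMap.range F).subtype (Submodule.subtype_injective _)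
  have e2 : Module.length O ((Fin r → O) ⧸ LinearMap.ker F)
      = Module.length O (LinearMap.range F) := F.quotKerEquivRange.length_eq
  have e3 : Module.length O (Π l : Fin r, O ⧸ (maximalIdeal O) ^ (k l))
      ≤ Module.length O ((Fin r → O) ⧸ LinearMap.ker F) :=
    Module.length_le_of_surjective _ hsurj
  have e4 : Module.length O (Π l : Fin r, O ⧸ (maximalIdeal O) ^ (k l))
      = ∑ l, (k l : ℕ∞) := by
    rw [Module.length_pi_of_fintype]
    exact Finset.sum_congr rfl fun l _ => LEN_.length_quot O (k l)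
  rw [← e4]
  exact e3.trans (e2.le.trans e1)

end Pool.Agent.QRL
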