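import Pool.Agent.QRL.Targets

set_option autoImplicit false

/-!
# QRL: STRUCT, structure of a finite module modulo a power of the maximal ideal
-/

namespace Pool.Agent.QRL

open Matrix IsLocalRing Polynomial

universe u v

namespace STRUCT_

variable {O : Type u} [CommRing O] [IsDomain O] [IsDiscreteValuationRing O]

/-- Powers of the maximal ideal. -/
theorem mem_pow {ϖ : O} (hϖ : Irreducible ϖ) (k : ℕ) (t : O) :
    t ∈ (maximalIdeal O) ^ k ↔ ϖ ^ k ∣ t := by
  rw [hϖ.maximalIdeal_eq, Ideal.span_singleton_pow, Ideal.mem_span_singleton]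

/-- The map `t ↦ ϖ ^ (n - k) t`. -/
noncomputable def ph (ϖ : O) (n k : ℕ) : O →ₗ[O] On O n :=
  LinearMap.toSpanSingleton O (On O n) (Ideal.Quotient.mk ((maximalIdeal O) ^ n) (ϖ ^ (n - k)))

theorem ph_apply (ϖ : O) (n k : ℕ) (t : O) :
    ph ϖ n k t = Ideal.Quotient.mk ((maximalIdeal O) ^ n) (t * ϖ ^ (n - k)) := by
  unfold ph
  rw [LinearMap.toSpanSingleton_apply, Algebra.smul_def]
  rfl

theorem ph_le {ϖ : O} (hϖ : Irreducible ϖ) {n k : ℕ} (hk : k ≤ n) :
    Submodule.span O {ϖ ^ k} ≤ LinearMap.ker (ph ϖ n k) := by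
  rw [Submodule.span_singleton_le_iff_mem, LinearMap.mem_ker, ph_apply,
    Ideal.Quotient.eq_zero_iff_mem, mem_pow hϖ, ← pow_add, Nat.add_sub_cancel' hk]

/-- The map from the cyclic module to `O / 𝔪^n`. -/
noncomputable def gm {ϖ : O} (hϖ : Irreducible ϖ) {n k : ℕ} (hk : k ≤ n) :
    (O ⧸ Submodule.span O {ϖ ^ k}) →ₗ[O] On O n :=
  Submodule.liftQ _ (ph ϖ n k) (ph_le hϖ hk)

theorem gm_mk {ϖ : O} (hϖ : Irreducible ϖ) {n k : ℕ} (hk : k ≤ n) (t : O) :
    gm hϖ hk (Submodule.Quotient.mk t) =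
      Ideal.Quotient.mk ((maximalIdeal O) ^ n) (t * ϖ ^ (n - k)) := by
  unfold gm
  rw [Submodule.liftQ_apply, ph_apply]

end STRUCT_

open STRUCT_ in
theorem p_STRUCT : T_STRUCT.{u, v} := by
  intro O _ _ _ M _ _ _ n N hN
  obtain ⟨ϖ, hϖ⟩ := IsDiscreteValuationRing.exists_irreducible O
  have hT : Module.IsTorsion' (M ⧸ N) (Submonoid.powers ϖ) := by
    rw [Submodule.isTorsion'_powers_iff]
    intro x
    obtain ⟨v, rfl⟩ := Submodule.Quotient.mk_surjective N x
    refine ⟨n, ?_⟩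
    rw [← Submodule.Quotient.mk_smul, Submodule.Quotient.mk_eq_zero]
    exact hN v _ ((mem_pow hϖ n _).mpr dvd_rfl)
  obtain ⟨r, k, ⟨e0⟩⟩ := Module.torsion_by_prime_power_decomposition hϖ hT
  set e : (M ⧸ N) ≃ₗ[O] (∀ l : Fin r, O ⧸ Submodule.span O {ϖ ^ k l}) :=
    e0.trans (DirectSum.linearEquivFunOnFintype O (Fin r) _) with he
  have hz : ∀ l : Fin r, ∃ v : M, Submodule.Quotient.mk v =
      e.symm (Pi.single l (Submodule.Quotient.mk (1 : O))) := fun l =>
    Submodule.Quotient.mk_surjective N _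
  choose z hz using hz
  have hmk : ∀ (l : Fin r) (t : O), (Submodule.Quotient.mk (t • z l) : M ⧸ N) =
      e.symm (Pi.single l (Submodule.Quotient.mk t)) := by
    intro l t
    rw [Submodule.Quotient.mk_smul, hz, ← map_smul, ← Pi.single_smul,
      ← Submodule.Quotient.mk_smul, smul_eq_mul, mul_one]
  have hsm : ∀ (l : Fin r) (t : O), t ∈ (maximalIdeal O) ^ (k l) → t • z l ∈ N := by
    intro l t ht
    rw [← Submodule.Quotient.mk_eq_zero, hmk, LinearEquiv.map_eq_zero_iff,
      Pi.single_eq_zero_iff, Submodule.Quotient.mk_eq_zero, ← Ideal.span,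
      Ideal.mem_span_singleton]
    exact (mem_pow hϖ _ _).mp ht
  have hk : ∀ l, k l ≤ n := by
    intro l
    have h1 : (Submodule.Quotient.mk ((ϖ ^ n) • z l) : M ⧸ N) = 0 := by
      rw [Submodule.Quotient.mk_eq_zero]
      exact hN _ _ ((mem_pow hϖ n _).mpr dvd_rfl)
    rw [hmk, LinearEquiv.map_eq_zero_iff, Pi.single_eq_zero_iff,
      Submodule.Quotient.mk_eq_zero, ← Ideal.span, Ideal.mem_span_singleton] at h1
    exact (pow_dvd_pow_iff hϖ.ne_zero hϖ.not_isUnit).mp h1
  set f : Fin r → (M →ₗ[O] On O n) := fun l =>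
    (gm hϖ (hk l)).comp ((LinearMap.proj l).comp (e.toLinearMap.comp N.mkQ)) with hf
  have hfa : ∀ (l : Fin r) (v : M), f l v = gm hϖ (hk l) (e (Submodule.Quotient.mk v) l) :=
    fun l v => rfl
  have hfz : ∀ l l' : Fin r, f l (z l') =
      if l = l' then Ideal.Quotient.mk ((maximalIdeal O) ^ n) (ϖ ^ (n - k l)) else 0 := by
    intro l l'
    rw [hfa, hz, LinearEquiv.apply_symm_apply]
    by_cases h : l = l'
    · subst h
      rw [if_pos rfl, Pi.single_eq_same, gm_mk, one_mul]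
    · rw [if_neg h, Pi.single_eq_of_ne h, map_zero]
  refine ⟨r, k, z, f, hk, ?_, hsm, ?_, ?_⟩
  · rw [eq_top_iff]
    intro v _
    have h1 : ∀ l : Fin r, ∃ t : O, Submodule.Quotient.mk t = e (Submodule.Quotient.mk v) l :=
      fun l => Submodule.Quotient.mk_surjective _ _
    choose t ht using h1
    have h2 : (Submodule.Quotient.mk v : M ⧸ N) = Submodule.Quotient.mk (∑ l, t l • z l) := by
      apply e.injective
      have h3 : (Submodule.Quotient.mk (∑ l, t l • z l) : M ⧸ N) =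
          ∑ l, (Submodule.Quotient.mk (t l • z l) : M ⧸ N) :=
        map_sum N.mkQ _ _
      rw [h3, map_sum]
      simp only [hmk, LinearEquiv.apply_symm_apply, ht]
      exact (Finset.univ_sum_single _).symm
    rw [Submodule.Quotient.eq] at h2
    have h4 : v = (∑ l, t l • z l) + (v - ∑ l, t l • z l) := by abel
    rw [h4]
    refine Submodule.add_mem_sup (Submodule.sum_mem _ fun l _ => ?_) h2
    exact Submodule.smul_mem _ _ (Submodule.subset_span ⟨l, rfl⟩)
  · intro l v hv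
    rw [LinearMap.mem_ker, hfa, (Submodule.Quotient.mk_eq_zero N).mpr hv, map_zero,
      Pi.zero_apply, map_zero]
  · intro β
    constructor
    · intro h l
      have h1 := LinearMap.congr_fun h (z l)
      rw [LinearMap.sum_apply, LinearMap.zero_apply] at h1
      simp only [LinearMap.smul_apply, hfz] at h1
      rw [Finset.sum_eq_single l (fun b _ hb => by rw [if_neg hb, smul_zero])
        (fun hb => absurd (Finset.mem_univ l) hb), if_pos rfl, Algebra.smul_def] at h1
      have h2 : Ideal.Quotient.mk ((maximalIdeal O) ^ n) (β l * ϖ ^ (n - k l)) = 0 := h1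
      rw [Ideal.Quotient.eq_zero_iff_mem, mem_pow hϖ] at h2
      rw [mem_pow hϖ]
      have h3 : ϖ ^ n = ϖ ^ k l * ϖ ^ (n - k l) := by
        rw [← pow_add, Nat.add_sub_cancel' (hk l)]
      rw [h3] at h2
      exact (mul_dvd_mul_iff_right (pow_ne_zero _ hϖ.ne_zero)).mp h2
    · intro h
      refine LinearMap.ext fun v => ?_
      rw [LinearMap.sum_apply, LinearMap.zero_apply]
      refine Finset.sum_eq_zero fun l _ => ?_
      rw [LinearMap.smul_apply, hfa]
      obtain ⟨t, ht⟩ := Submodule.Quotient.mk_surjective _ (e (Submodule.Quotient.mk v) l)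
      rw [← ht, gm_mk, Algebra.smul_def]
      change Ideal.Quotient.mk ((maximalIdeal O) ^ n) (β l * (t * ϖ ^ (n - k l))) = 0
      rw [Ideal.Quotient.eq_zero_iff_mem, mem_pow hϖ]
      obtain ⟨s, hs⟩ := (mem_pow hϖ _ _).mp (h l)
      have h3 : ϖ ^ n = ϖ ^ k l * ϖ ^ (n - k l) := by
        rw [← pow_add, Nat.add_sub_cancel' (hk l)]
      rw [h3, hs]
      exact ⟨s * t, by ring⟩

end Pool.Agent.QRL
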