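import Pool.Agent.QRL.Defs

set_option autoImplicit false

/-!
# QRL: four independent lemmas (targets). Complete proofs in the docstrings.
-/

namespace Pool.Agent.QRL

open Matrix IsLocalRing Polynomial

universe u v w x

/-- DET. PROOF. First the combinatorial lemma (balanced products). Let `E` be a multiset of
triples `(i, k, c)` with `c ∈ 𝔞 i k` for every member, and `E.map fst = E.map (second entry)`
(every index is as often a source as a target). CLAIM: the product `p` of all `c` lies in `T`, and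
if some member has `i ≠ k` then `lam p = 0`. Induction on `card E`. If all members have `i = k`,
use `h1` (`T` is a subring). Otherwise `E = (i, k, c) ::ₘ E1` with `i ≠ k`; `k` is a target, hence
a source: some member of `E1` is `(k, l, c')` (the member `(i, k, c)` has source `i ≠ k`), so
`E1 = (k, l, c') ::ₘ E2`. If `l = i` then `E2` is balanced, its product is in `T`, and
`lam (c * c') = 0` by `hI`. If `l ≠ i` replace the two triples by `(i, l, c * c')` (`hmul`):
balanced, one member less, same product, and it has a member with `i ≠ l`.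
Now `Matrix.det_apply`: `N.det = ∑ w, sign w • ∏ l, N (w l) l`. For a permutation `w` apply the
claim to `E = univ.val.map (fun l => (bl (w l), bl l, N (w l) l))`. If `bl (w l) = bl l` for all
`l` then every factor is in `T` and `lam (∏ N) = ∏ N'` by `hN''`; otherwise both
`lam (∏ N) = 0` and `∏ N' = 0` (`hN'`). Sum up (`map_sum`, `map_zsmul`/units of `ℤ`). -/
def T_DET : Prop := ∀ (C : Type u) (Q : Type v) (ι : Type w) (L : Type x) [CommRing C]
  [CommRing Q] [Fintype L] [DecidableEq L] [DecidableEq ι] (T : Subring C) (lam : T →+* Q)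
  (𝔞 : ι → ι → Set C) (_h1 : ∀ i, 𝔞 i i = (T : Set C))
  (_hmul : ∀ i k l, ∀ a ∈ 𝔞 i k, ∀ b ∈ 𝔞 k l, a * b ∈ 𝔞 i l)
  (_hI : ∀ i k, i ≠ k → ∀ a ∈ 𝔞 i k, ∀ b ∈ 𝔞 k i, ∃ h : a * b ∈ T, lam ⟨a * b, h⟩ = 0)
  (bl : L → ι) (N : Matrix L L C) (_hN : ∀ l l', N l l' ∈ 𝔞 (bl l) (bl l'))
  (N' : Matrix L L Q) (_hN' : ∀ l l', bl l ≠ bl l' → N' l l' = 0)
  (_hN'' : ∀ l l' (h : N l l' ∈ T), bl l = bl l' → N' l l' = lam ⟨N l l', h⟩),
  ∃ h : N.det ∈ T, lam ⟨N.det, h⟩ = N'.det

/-- EIG. PROOF. Write `k` for the residue field, bars for reduction, `P = m.charpoly`.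
(1) For every `f : k[X]`: `trace (aeval m̄ f) = ∑ x, f.eval (c̄ x)` (lift the coefficients of `f` to
`O`, the residue map is surjective; the reduction of `aeval m g` is `aeval m̄ ḡ`).
(2) `P̄ = charpoly m̄` and `aeval m̄ P̄ = 0` (Cayley-Hamilton). For `x : X` let
`f = P̄ * L_x`, `L_x = Lagrange.basis univ c̄ x`; then
`0 = trace (aeval m̄ f) = ∑ y, P̄(c̄ y) L_x(c̄ y) = P̄(c̄ x)`.
So `P̄` is monic of degree `card X` with the `card X` distinct roots `c̄ x`, hence
`P̄ = ∏ x, (X - C (c̄ x))`, which is separable (`Polynomial.separable_prod_X_sub_C_iff`), so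
`P̄'(c̄ x) ≠ 0`.
(3) `HenselianLocalRing.is_henselian P` gives roots `μ x` of `P` with `μ x - c x ∈ 𝔪`.
(4) `det (scalar (μ x) - m) = 0`, so there is `v ≠ 0` with `m v = μ x v`
(`Matrix.exists_mulVec_eq_zero_iff`, `O` is a domain). In the valuation ring `O` some entry `v z`
divides all entries of `v` (`v z ≠ 0`), so `v = v z • w` with `w z = 1` and `m w = μ x w`. Let `u`
be the matrix whose column `x` is this `w`. Then `m * u = u * diagonal μ`.
(5) The columns of `ū` are nonzero eigenvectors of `m̄` with the distinct eigenvalues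
`μ̄ x = c̄ x`, hence linearly independent (`Module.End.eigenvectors_linearIndependent'`), so
`ū.det ≠ 0`, i.e. `u.det` is a unit. -/
def T_EIG : Prop := ∀ (O : Type u) [CommRing O] [IsDomain O] [IsDiscreteValuationRing O]
  [HenselianLocalRing O] (X : Type v) [Fintype X] [DecidableEq X] (m : Matrix X X O) (c : X → O)
  (_hc : Function.Injective fun x => residue O (c x))
  (_htr : ∀ f : O[X], (Polynomial.aeval m f).trace - ∑ x, f.eval (c x) ∈ maximalIdeal O),
  ∃ (μ : X → O) (y : Matrix X X O), IsUnit y.det ∧ m * y = y * Matrix.diagonal μ ∧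
    ∀ x, μ x - c x ∈ maximalIdeal O

/-- STRUCT. PROOF. Let `ϖ` be a uniformiser. `M ⧸ N` is a finite torsion module killed by `ϖ^n`,
so by `Module.torsion_by_prime_power_decomposition` (with `p = ϖ`) there is an isomorphism
`e : (M ⧸ N) ≃ ⨁ l : Fin r, O ⧸ (ϖ^(k l))`. Since `ϖ^n` kills it, `ϖ^n ∈ (ϖ^(k l))`, i.e.
`k l ≤ n`. Let `z l` be a lift of `e.symm (of l 1)`; `f l` is the composition of `M → M ⧸ N`, `e`,
the projection to `O ⧸ (ϖ^(k l))` and multiplication by `ϖ^(n - k l)` into `O ⧸ 𝔪^n`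
(well defined: `ϖ^(k l) ϖ^(n - k l) = ϖ^n`). Then `f l (z l') = 0` for `l' ≠ l` and
`f l (z l) = ϖ^(n - k l)`; all properties follow; `𝔪^k = (ϖ^k)`. -/
def T_STRUCT : Prop := ∀ (O : Type u) [CommRing O] [IsDomain O] [IsDiscreteValuationRing O]
  (M : Type v) [AddCommGroup M] [Module O M] [Module.Finite O M] (n : ℕ) (N : Submodule O M)
  (_hN : ∀ v : M, ∀ t ∈ (maximalIdeal O) ^ n, t • v ∈ N),
  ∃ (r : ℕ) (k : Fin r → ℕ) (z : Fin r → M) (f : Fin r → (M →ₗ[O] On O n)),
    (∀ l, k l ≤ n) ∧ (Submodule.span O (Set.range z) ⊔ N = ⊤) ∧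
    (∀ l, ∀ t ∈ (maximalIdeal O) ^ (k l), t • z l ∈ N) ∧
    (∀ l, N ≤ LinearMap.ker (f l)) ∧
    ∀ β : Fin r → O, ∑ l, β l • f l = 0 ↔ ∀ l, β l ∈ (maximalIdeal O) ^ (k l)

/-- LEN. PROOF. `range F ≅ (Fin r → O) ⧸ ker F` surjects onto `Π l, O ⧸ 𝔪^(k l)` because
`ker F ≤ Π 𝔪^(k l)`, so `length Q ≥ length (range F) ≥ ∑ l, length (O ⧸ 𝔪^(k l))`
(`Module.length_le_of_injective`, `Module.length_le_of_surjective`, `Module.length_pi_of_fintype`
or similar) and `length (O ⧸ 𝔪^e) = e` (induction on `e`: exact sequence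
`0 → O ⧸ 𝔪 → O ⧸ 𝔪^(e+1) → O ⧸ 𝔪^e → 0`, the first map being multiplication by `ϖ^e`). -/
def T_LEN : Prop := ∀ (O : Type u) [CommRing O] [IsDomain O] [IsDiscreteValuationRing O]
  (r : ℕ) (k : Fin r → ℕ) (Q : Type v) [AddCommGroup Q] [Module O Q]
  (F : (Fin r → O) →ₗ[O] Q)
  (_hF : ∀ β, F β = 0 → ∀ l, β l ∈ (maximalIdeal O) ^ (k l)),
  (∑ l, (k l : ℕ∞)) ≤ Module.length O Q

end Pool.Agent.QRL
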